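import Pool.Agent.Helper95.PN.Stmts

/-! Sheet PN, row HLOC: localized Hardy inequality. -/

set_option autoImplicit false

namespace Pool.Agent.Helper95.PW

open MeasureTheory Filter

/-- cutoff -/
noncomputable def hlP (z : R3) : ℝ := Real.smoothTransition (2 - (z 0 ^ 2 + z 1 ^ 2 + z 2 ^ 2))

theorem hl_nr (y : R3) : nr y = ‖(WithLp.toLp 2 y : EuclideanSpace ℝ (Fin 3))‖ := by
  rw [EuclideanSpace.norm_eq, nr]
  simp [Fin.sum_univ_three]

theorem hl_tri (a b : R3) : nr (a - b) ≤ nr a + nr b := by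
  rw [hl_nr, hl_nr, hl_nr, WithLp.toLp_sub]
  exact norm_sub_le _ _

theorem hl_nr0 (y : R3) : 0 ≤ nr y := Real.sqrt_nonneg _

theorem hl_nrsq (y : R3) : nr y ^ 2 = y 0 ^ 2 + y 1 ^ 2 + y 2 ^ 2 := by
  unfold nr
  exact Real.sq_sqrt (by positivity)

theorem hl_nrc : Continuous nr := by
  unfold nr
  fun_prop

theorem hl_sm : ContDiff ℝ (⊤ : ℕ∞) hlP := by
  have h : ContDiff ℝ (⊤ : ℕ∞) (fun z : R3 => 2 - (z 0 ^ 2 + z 1 ^ 2 + z 2 ^ 2)) := by fun_prop
  exact Real.smoothTransition.contDiff.comp h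

theorem hl_one {z : R3} (h : z 0 ^ 2 + z 1 ^ 2 + z 2 ^ 2 ≤ 1) : hlP z = 1 :=
  Real.smoothTransition.one_of_one_le (by linarith)

theorem hl_zero {z : R3} (h : 2 ≤ z 0 ^ 2 + z 1 ^ 2 + z 2 ^ 2) : hlP z = 0 :=
  Real.smoothTransition.zero_of_nonpos (by linarith)

theorem hl_nn (z : R3) : 0 ≤ hlP z := Real.smoothTransition.nonneg _

theorem hl_le (z : R3) : hlP z ≤ 1 := Real.smoothTransition.le_one _

theorem hl_ts {z : R3} (h : 2 < z 0 ^ 2 + z 1 ^ 2 + z 2 ^ 2) : z ∉ tsupport hlP := by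
  have h1 : tsupport hlP ⊆ {z : R3 | z 0 ^ 2 + z 1 ^ 2 + z 2 ^ 2 ≤ 2} := by
    refine closure_minimal (fun z hz => ?_) (isClosed_le (by fun_prop) continuous_const)
    by_contra h2
    exact hz (hl_zero (not_le.1 h2).le)
  exact fun h2 => not_lt.2 (h1 h2) h

theorem hl_cs : HasCompactSupport hlP := by
  refine HasCompactSupport.of_support_subset_isCompact (isCompact_closedBall (0 : R3) 2) ?_
  intro z hz
  have h1 : z 0 ^ 2 + z 1 ^ 2 + z 2 ^ 2 ≤ 2 := by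
    by_contra h2
    exact hz (hl_zero (not_le.1 h2).le)
  rw [mem_closedBall_zero_iff, pi_norm_le_iff_of_nonneg (by norm_num)]
  intro i
  rw [Real.norm_eq_abs]
  refine abs_le_of_sq_le_sq ?_ (by norm_num)
  fin_cases i
  · change z 0 ^ 2 ≤ 2 ^ 2
    nlinarith [sq_nonneg (z 1), sq_nonneg (z 2)]
  · change z 1 ^ 2 ≤ 2 ^ 2
    nlinarith [sq_nonneg (z 0), sq_nonneg (z 2)]
  · change z 2 ^ 2 ≤ 2 ^ 2
    nlinarith [sq_nonneg (z 0), sq_nonneg (z 1)]

theorem hl_bd : ∃ A : ℝ, 0 ≤ A ∧ ∀ i z, |pd i hlP z| ≤ A := by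
  have hc : Continuous (fderiv ℝ hlP) := hl_sm.continuous_fderiv (by simp)
  obtain ⟨A, hA⟩ := hc.bounded_above_of_compact_support (hl_cs.fderiv (𝕜 := ℝ))
  refine ⟨A, (norm_nonneg _).trans (hA 0), fun i z => ?_⟩
  unfold pd
  calc |fderiv ℝ hlP z (Pi.single i 1)| ≤ ‖fderiv ℝ hlP z‖ * ‖(Pi.single i 1 : R3)‖ :=
        (fderiv ℝ hlP z).le_opNorm _
    _ = ‖fderiv ℝ hlP z‖ := by rw [Pi.norm_single, norm_one, mul_one]
    _ ≤ A := hA z

theorem hl_pd0 {i : Fin 3} {z : R3} (h : 2 < z 0 ^ 2 + z 1 ^ 2 + z 2 ^ 2) : pd i hlP z = 0 := by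
  unfold pd
  rw [fderiv_of_notMem_tsupport ℝ (hl_ts h)]
  rfl

/-- the localized function -/
noncomputable def hlW {n : ℕ} (d : ℝ) (a : R3) (k : Fin n) (v : Cf n → ℝ) (x : Cf n) : ℝ :=
  hlP (d⁻¹ • (x k - a)) * v x

theorem hl_Wsm {n : ℕ} (d : ℝ) (a : R3) (k : Fin n) {v : Cf n → ℝ}
    (h1 : ContDiff ℝ (⊤ : ℕ∞) v) (h2 : HasCompactSupport v) :
    ContDiff ℝ (⊤ : ℕ∞) (hlW d a k v) ∧ HasCompactSupport (hlW d a k v) := by
  have h : ContDiff ℝ (⊤ : ℕ∞) (fun x : Cf n => d⁻¹ • (x k - a)) := by fun_prop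
  exact ⟨(hl_sm.comp h).mul h1, h2.mul_left⟩

theorem hl_dv {n : ℕ} (d : ℝ) (a : R3) (k : Fin n) (i : Fin 3) {v : Cf n → ℝ}
    (h1 : ContDiff ℝ (⊤ : ℕ∞) v) (x : Cf n) :
    dv k i (hlW d a k v) x = d⁻¹ * pd i hlP (d⁻¹ • (x k - a)) * v x +
      hlP (d⁻¹ • (x k - a)) * dv k i v x := by
  have hg : HasFDerivAt (fun x : Cf n => d⁻¹ • (x k - a))
      (d⁻¹ • (ContinuousLinearMap.proj k : Cf n →L[ℝ] R3)) x :=
    ((ContinuousLinearMap.proj k : Cf n →L[ℝ] R3).hasFDerivAt.sub_const a).const_smul d⁻¹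
  have hP : HasFDerivAt hlP (fderiv ℝ hlP (d⁻¹ • (x k - a))) (d⁻¹ • (x k - a)) :=
    (hl_sm.differentiable (by simp) _).hasFDerivAt
  have hv : HasFDerivAt v (fderiv ℝ v x) x := (h1.differentiable (by simp) x).hasFDerivAt
  have hm := (hP.comp x hg).mul hv
  have e : fderiv ℝ (hlW d a k v) x = _ := hm.fderiv
  unfold dv pd
  rw [e]
  simp
  ring

theorem hl_sep {M : ℕ} {X : Fin M → R3} {d : ℝ} (hS : Sep X d) (f : R3 → ℝ)
    (B : ℝ) (h0 : ∀ z, 0 ≤ f z) (hB : ∀ z, f z ≤ B) (hz : ∀ z, 2 * d ≤ nr z → f z = 0) (y : R3) :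
    ∑ j, f (y - X j) ≤ B := by
  by_cases h : ∃ j, nr (y - X j) < 2 * d
  · obtain ⟨j, hj⟩ := h
    rw [Finset.sum_eq_single j]
    · exact hB _
    · intro b _ hb
      apply hz
      by_contra hc
      have h1 := hS b j hb
      have h2 := hl_tri (y - X j) (y - X b)
      rw [show y - X j - (y - X b) = X b - X j by abel] at h2
      linarith
    · simp
  · push Not at h
    rw [Finset.sum_eq_zero fun j _ => hz _ (h j)]
    exact (h0 0).trans (hB 0)

theorem hl_q {d : ℝ} (hd : 0 < d) {w : R3} (h : 2 * d ≤ nr w) :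
    2 < (d⁻¹ • w) 0 ^ 2 + (d⁻¹ • w) 1 ^ 2 + (d⁻¹ • w) 2 ^ 2 := by
  have h1 : (2 * d) ^ 2 ≤ nr w ^ 2 := pow_le_pow_left₀ (by positivity) h 2
  rw [hl_nrsq] at h1
  have e : (d⁻¹ • w) 0 ^ 2 + (d⁻¹ • w) 1 ^ 2 + (d⁻¹ • w) 2 ^ 2 =
      (w 0 ^ 2 + w 1 ^ 2 + w 2 ^ 2) / d ^ 2 := by
    simp only [Pi.smul_apply, smul_eq_mul]
    field_simp
  rw [e, lt_div_iff₀ (by positivity)]
  nlinarith

theorem hl_q1 {d : ℝ} (hd : 0 < d) {w : R3} (h : nr w < d) :
    (d⁻¹ • w) 0 ^ 2 + (d⁻¹ • w) 1 ^ 2 + (d⁻¹ • w) 2 ^ 2 ≤ 1 := by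
  have h1 : nr w ^ 2 ≤ d ^ 2 := pow_le_pow_left₀ (hl_nr0 w) h.le 2
  rw [hl_nrsq] at h1
  have e : (d⁻¹ • w) 0 ^ 2 + (d⁻¹ • w) 1 ^ 2 + (d⁻¹ • w) 2 ^ 2 =
      (w 0 ^ 2 + w 1 ^ 2 + w 2 ^ 2) / d ^ 2 := by
    simp only [Pi.smul_apply, smul_eq_mul]
    field_simp
  rw [e, div_le_one (by positivity)]
  exact h1

theorem hl_point {n M : ℕ} {X : Fin M → R3} {d A : ℝ} (hd : 0 < d) (hS : Sep X d)
    (hA : ∀ i z, |pd i hlP z| ≤ A) (k : Fin n) {v : Cf n → ℝ}
    (h1 : ContDiff ℝ (⊤ : ℕ∞) v) (x : Cf n) :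
    ∑ j, ∑ i, dv k i (hlW d (X j) k v) x ^ 2 ≤
      2 * ∑ i, dv k i v x ^ 2 + 6 * (A / d) ^ 2 * v x ^ 2 := by
  rw [Finset.sum_comm]
  have hi : ∀ i : Fin 3, ∑ j, dv k i (hlW d (X j) k v) x ^ 2 ≤
      2 * dv k i v x ^ 2 + 2 * (A / d) ^ 2 * v x ^ 2 := by
    intro i
    have e1 : ∀ j, dv k i (hlW d (X j) k v) x ^ 2 ≤
        2 * v x ^ 2 * (d⁻¹ * pd i hlP (d⁻¹ • (x k - X j))) ^ 2 +
          2 * dv k i v x ^ 2 * hlP (d⁻¹ • (x k - X j)) ^ 2 := by
      intro j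
      rw [hl_dv d (X j) k i h1 x]
      nlinarith [sq_nonneg (d⁻¹ * pd i hlP (d⁻¹ • (x k - X j)) * v x -
        hlP (d⁻¹ • (x k - X j)) * dv k i v x)]
    have s1 : ∑ j, (d⁻¹ * pd i hlP (d⁻¹ • (x k - X j))) ^ 2 ≤ (A / d) ^ 2 := by
      refine hl_sep hS (fun w => (d⁻¹ * pd i hlP (d⁻¹ • w)) ^ 2) _ (fun z => sq_nonneg _)
        (fun z => ?_) (fun z hz => ?_) (x k)
      · rw [div_eq_inv_mul, mul_pow, mul_pow]
        refine mul_le_mul_of_nonneg_left ?_ (sq_nonneg _)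
        exact sq_le_sq' (by linarith [(abs_le.1 (hA i (d⁻¹ • z))).1])
          (abs_le.1 (hA i (d⁻¹ • z))).2
      · rw [hl_pd0 (hl_q hd hz)]
        simp
    have s2 : ∑ j, hlP (d⁻¹ • (x k - X j)) ^ 2 ≤ 1 := by
      refine hl_sep hS (fun w => hlP (d⁻¹ • w) ^ 2) _ (fun z => sq_nonneg _)
        (fun z => ?_) (fun z hz => ?_) (x k)
      · exact pow_le_one₀ (hl_nn _) (hl_le _)
      · rw [hl_zero (hl_q hd hz).le]
        simp
    calc ∑ j, dv k i (hlW d (X j) k v) x ^ 2 ≤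
          ∑ j, (2 * v x ^ 2 * (d⁻¹ * pd i hlP (d⁻¹ • (x k - X j))) ^ 2 +
          2 * dv k i v x ^ 2 * hlP (d⁻¹ • (x k - X j)) ^ 2) := Finset.sum_le_sum fun j _ => e1 j
      _ = 2 * v x ^ 2 * ∑ j, (d⁻¹ * pd i hlP (d⁻¹ • (x k - X j))) ^ 2 +
          2 * dv k i v x ^ 2 * ∑ j, hlP (d⁻¹ • (x k - X j)) ^ 2 := by
        rw [Finset.sum_add_distrib, Finset.mul_sum, Finset.mul_sum]
      _ ≤ 2 * v x ^ 2 * (A / d) ^ 2 + 2 * dv k i v x ^ 2 * 1 :=
        add_le_add (mul_le_mul_of_nonneg_left s1 (by positivity))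
          (mul_le_mul_of_nonneg_left s2 (by positivity))
      _ = 2 * dv k i v x ^ 2 + 2 * (A / d) ^ 2 * v x ^ 2 := by ring
  refine (Finset.sum_le_sum fun i _ => hi i).trans (le_of_eq ?_)
  rw [Finset.sum_add_distrib, ← Finset.mul_sum]
  simp
  ring

/-- smooth functions with compact support -/
theorem hl_int {n : ℕ} {v : Cf n → ℝ} (h1 : ContDiff ℝ (⊤ : ℕ∞) v) (h2 : HasCompactSupport v) :
    Integrable (fun x => v x ^ 2) := by
  have e : (fun x => v x ^ 2) = fun x => v x * v x := by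
    funext x
    ring
  rw [e]
  exact (h1.continuous.mul h1.continuous).integrable_of_hasCompactSupport h2.mul_left

theorem hl_dvi {n : ℕ} (k : Fin n) (i : Fin 3) {v : Cf n → ℝ} (h1 : ContDiff ℝ (⊤ : ℕ∞) v)
    (h2 : HasCompactSupport v) : Integrable (fun x => dv k i v x ^ 2) := by
  have hc : Continuous (dv k i v) := by
    unfold dv
    exact (h1.continuous_fderiv (by simp)).clm_apply continuous_const
  have hs : HasCompactSupport (dv k i v) := by
    unfold dv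
    exact (h2.fderiv (𝕜 := ℝ)).comp_left (g := fun L : Cf n →L[ℝ] ℝ =>
      L (Pi.single k (Pi.single i 1))) rfl
  have e : (fun x => dv k i v x ^ 2) = fun x => dv k i v x * dv k i v x := by
    funext x
    ring
  rw [e]
  exact (hc.mul hc).integrable_of_hasCompactSupport hs.mul_left

theorem st_HLOC (h1 : ST_HA3) : ST_HLOC := by
  obtain ⟨A, hA0, hA⟩ := hl_bd
  refine ⟨8 + 24 * A ^ 2, by positivity, ?_⟩
  intro n M X d u hd hS hu
  -- one nucleus, one electron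
  set p : (Fin n → Fin 2) → Fin n → Fin M → Cf n → ℝ := fun s k j x =>
    Set.indicator {x : Cf n | nr (x k - X j) < d}
      (fun x => hlW d (X j) k (u s) x ^ 2 / nr (x k - X j) ^ 2) x with hp
  have hmeas : ∀ (k : Fin n) (j : Fin M), MeasurableSet {x : Cf n | nr (x k - X j) < d} := by
    intro k j
    have : Continuous fun x : Cf n => nr (x k - X j) := hl_nrc.comp (by fun_prop)
    exact (isOpen_lt this continuous_const).measurableSet
  have hpi : ∀ s k j, Integrable (p s k j) := by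
    intro s k j
    obtain ⟨w1, w2⟩ := hl_Wsm d (X j) k (hu s).1 (hu s).2
    exact (h1 n k (X j) _ w1 w2).1.indicator (hmeas k j)
  have hpe : ∀ s x, (∑ k, near2 X d (x k)) * u s x ^ 2 = ∑ k, ∑ j, p s k j x := by
    intro s x
    rw [Finset.sum_mul]
    refine Finset.sum_congr rfl fun k _ => ?_
    unfold near2
    rw [Finset.sum_mul]
    refine Finset.sum_congr rfl fun j _ => ?_
    rw [hp]
    simp only
    by_cases h : nr (x k - X j) < d
    · rw [if_pos h, Set.indicator_of_mem (show x ∈ {x : Cf n | nr (x k - X j) < d} from h)]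
      unfold hlW
      rw [hl_one (hl_q1 hd h)]
      ring
    · rw [if_neg h, Set.indicator_of_notMem (show x ∉ {x : Cf n | nr (x k - X j) < d} from h)]
      ring
  have hpb : ∀ s k j, ∫ x, p s k j x ≤ 4 * ∫ x, ∑ i, dv k i (hlW d (X j) k (u s)) x ^ 2 := by
    intro s k j
    obtain ⟨w1, w2⟩ := hl_Wsm d (X j) k (hu s).1 (hu s).2
    obtain ⟨a1, a2⟩ := h1 n k (X j) _ w1 w2
    refine le_trans (integral_mono (hpi s k j) a1 fun x => ?_) a2
    exact Set.indicator_le_self' (fun _ _ => by positivity) x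
  have hkk : ∀ s k, ∑ j, ∫ x, p s k j x ≤
      8 * (∑ i, ∫ x, dv k i (u s) x ^ 2) + 24 * A ^ 2 / d ^ 2 * ∫ x, u s x ^ 2 := by
    intro s k
    have hDi : ∀ i, Integrable (fun x => dv k i (u s) x ^ 2) := fun i =>
      hl_dvi k i (hu s).1 (hu s).2
    have hvi := hl_int (hu s).1 (hu s).2
    have hWi : ∀ j i, Integrable (fun x => dv k i (hlW d (X j) k (u s)) x ^ 2) := fun j i => by
      obtain ⟨w1, w2⟩ := hl_Wsm d (X j) k (hu s).1 (hu s).2
      exact hl_dvi k i w1 w2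
    calc ∑ j, ∫ x, p s k j x ≤ ∑ j, 4 * ∫ x, ∑ i, dv k i (hlW d (X j) k (u s)) x ^ 2 :=
          Finset.sum_le_sum fun j _ => hpb s k j
      _ = 4 * ∫ x, ∑ j, ∑ i, dv k i (hlW d (X j) k (u s)) x ^ 2 := by
        rw [← Finset.mul_sum, integral_finsetSum]
        intro j _
        exact integrable_finsetSum _ fun i _ => hWi j i
      _ ≤ 4 * ∫ x, (2 * ∑ i, dv k i (u s) x ^ 2 + 6 * (A / d) ^ 2 * u s x ^ 2) := by
        refine mul_le_mul_of_nonneg_left (integral_mono ?_ ?_ fun x => ?_) (by norm_num)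
        · exact integrable_finsetSum _ fun j _ => integrable_finsetSum _ fun i _ => hWi j i
        · exact ((integrable_finsetSum _ fun i _ => hDi i).const_mul 2).add (hvi.const_mul _)
        · exact hl_point hd hS hA k (hu s).1 x
      _ = 8 * (∑ i, ∫ x, dv k i (u s) x ^ 2) + 24 * A ^ 2 / d ^ 2 * ∫ x, u s x ^ 2 := by
        rw [integral_add ((integrable_finsetSum _ fun i _ => hDi i).const_mul 2)
          (hvi.const_mul _), integral_const_mul, integral_const_mul,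
          integral_finsetSum _ fun i _ => hDi i]
        ring
  refine ⟨fun s => ?_, ?_⟩
  · have e : (fun x : Cf n => (∑ k, near2 X d (x k)) * u s x ^ 2) =
        fun x => ∑ k, ∑ j, p s k j x := funext fun x => hpe s x
    rw [e]
    exact integrable_finsetSum _ fun k _ => integrable_finsetSum _ fun j _ => hpi s k j
  · have e1 : one (near2 X d) u = ∑ s, ∑ k, ∑ j, ∫ x, p s k j x := by
      unfold one
      refine Finset.sum_congr rfl fun s _ => ?_
      rw [integral_congr_ae (Eventually.of_forall fun x => hpe s x), integral_finsetSum]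
      · refine Finset.sum_congr rfl fun k _ => ?_
        rw [integral_finsetSum]
        intro j _
        exact hpi s k j
      · intro k _
        exact integrable_finsetSum _ fun j _ => hpi s k j
    have e2 : ∑ s : Fin n → Fin 2, ∑ k : Fin n, (8 * (∑ i, ∫ x, dv k i (u s) x ^ 2) +
        24 * A ^ 2 / d ^ 2 * ∫ x, u s x ^ 2) = 8 * kin u + 24 * A ^ 2 * (n * sq u / d ^ 2) := by
      have e3 : kin u = ∑ s : Fin n → Fin 2, ∑ k : Fin n, ∑ i, ∫ x, dv k i (u s) x ^ 2 := by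
        unfold kin sq
        symm
        rw [Finset.sum_comm]
        refine Finset.sum_congr rfl fun k _ => ?_
        exact Finset.sum_comm
      rw [e3]
      unfold sq
      simp only [Finset.sum_add_distrib, Finset.sum_const, Finset.card_univ, Fintype.card_fin,
        nsmul_eq_mul, ← Finset.mul_sum]
      ring
    have hk0 : 0 ≤ kin u := by
      unfold kin sq
      exact Finset.sum_nonneg fun k _ => Finset.sum_nonneg fun i _ => Finset.sum_nonneg fun s _ =>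
        integral_nonneg fun x => sq_nonneg _
    have hs0 : 0 ≤ n * sq u / d ^ 2 := by
      have : 0 ≤ sq u := by
        unfold sq
        exact Finset.sum_nonneg fun s _ => integral_nonneg fun x => sq_nonneg _
      positivity
    rw [e1]
    refine (Finset.sum_le_sum fun s _ => Finset.sum_le_sum fun k _ => hkk s k).trans ?_
    rw [e2]
    nlinarith [mul_nonneg (sq_nonneg A) hk0, mul_nonneg (sq_nonneg A) hs0]

end Pool.Agent.Helper95.PW
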