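import Pool.Agent.Helper79.PN.Lem

set_option autoImplicit false

/-!
MP_7c9036_mp, module E12: edges between the vertices of index 1 and 2.
-/

open scoped Classical

namespace Pool.Agent.Helper7.PN

open Pool.Agent.Helper79.PN

theorem st_E12 : ST_E12 := by
  intro P X i hn hv hT hv' hT'
  have n1 : P.n (X + e i) = 2 := by rw [P.n_add, hn]; rfl
  obtain ⟨s0, s1, s4, s2, s3⟩ := P.stp X i
  have hT1 : ∀ k, ¬ T1 P X k := fun k hk => hT ((isT_1 hn).2 ⟨k, hk⟩)
  have hT2 : ∀ k, ¬ T2 P (X + e i) k := fun k hk => hT' ((isT_2 n1).2 ⟨k, hk⟩)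
  have hx : ∀ j, P.h X j < (g - 1) / 2 ∨ (g - 1) / 2 < P.h X j := fun j =>
    lt_or_gt_of_ne (nsa hn j)
  rcases hx (i + 2) with h2 | h2 <;> rcases hx (i - 2) with h3 | h3
  · exfalso
    exact hT2 i ⟨n1, hv', by rw [s2]; linarith, by rw [s3]; linarith⟩
  · have h4 : P.h X (i - 1) < (g - 1) / 2 := by
      rcases hx (i - 1) with h | h
      · exact h
      · exfalso
        exact hT1 (i + 1) ⟨hn, hv, by rw [p1p2]; exact h3, by rw [p1m2]; exact h⟩
    have hA : ¬ X1 P X (i + 2) := fun h => by linarith [h.2.2.1]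
    have hB : X1 P X (i - 2) := ⟨hn, hv, h3, by rw [m2p1]; exact h4, by rw [m2m1]; exact h2⟩
    rw [ind_false hA, ind_true hB, zero_add]
  · have h4 : P.h X (i + 1) < (g - 1) / 2 := by
      rcases hx (i + 1) with h | h
      · exact h
      · exfalso
        exact hT1 (i - 1) ⟨hn, hv, by rw [m1p2]; exact h, by rw [m1m2]; exact h2⟩
    have hA : X1 P X (i + 2) := ⟨hn, hv, h2, by rw [p2p1]; exact h3, by rw [p2m1]; exact h4⟩
    have hB : ¬ X1 P X (i - 2) := fun h => by linarith [h.2.2.1]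
    rw [ind_true hA, ind_false hB, add_zero]
  · exfalso
    exact hT1 i ⟨hn, hv, h2, h3⟩

end Pool.Agent.Helper7.PN
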